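import Pool.Agent.G9.Stmts

/-!
# GNI, row LOW (helper35)

Lower bound of the quadratic form of the polarity graph by Fourier analysis on `F ^ 4`.
-/

set_option autoImplicit false

namespace Pool.Agent.G9.H35

open Finset

/-! ## The character -/

theorem exists_char (F : Type) [Field F] [Fintype F] (σ : F ≃+* F) :
    ∃ ψ : AddChar F ℂ, ψ ≠ 1 ∧ ∀ x, ψ (σ x) = ψ x := by
  have hp : Fact (ringChar F).Prime := ⟨CharP.char_is_prime F _⟩
  let _ : Algebra (ZMod (ringChar F)) F := ZMod.algebra F (ringChar F)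
  let e : F ≃ₐ[ZMod (ringChar F)] F := AlgEquiv.ofRingEquiv (f := σ) (fun r => by
    have h : (σ : F →+* F).comp (algebraMap (ZMod (ringChar F)) F) =
      algebraMap (ZMod (ringChar F)) F := RingHom.ext_zmod _ _
    exact RingHom.congr_fun h r)
  refine ⟨(ZMod.stdAddChar (N := ringChar F)).compAddMonoidHom
    (Algebra.trace (ZMod (ringChar F)) F).toAddMonoidHom, ?_, ?_⟩
  · obtain ⟨b, hb⟩ := FiniteField.trace_to_zmod_nondegenerate F (a := 1) one_ne_zero
    intro h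
    have h1 := DFunLike.congr_fun h b
    rw [AddChar.compAddMonoidHom_apply, AddChar.one_apply] at h1
    have h2 : ZMod.stdAddChar (N := ringChar F) (Algebra.trace (ZMod (ringChar F)) F b) =
        ZMod.stdAddChar (N := ringChar F) 0 := by
      rw [AddChar.map_zero_eq_one]
      exact h1
    have h3 := ZMod.injective_stdAddChar h2
    rw [one_mul] at hb
    exact hb h3
  · intro x
    rw [AddChar.compAddMonoidHom_apply, AddChar.compAddMonoidHom_apply]
    congr 1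
    exact Algebra.trace_eq_of_algEquiv e x

/-! ## The neighbours -/

/-- the last four coordinates -/
abbrev W9 (F : Type) := F × F × F × F

/-- the exchange of coordinates -/
def sw9 {F : Type} (w : W9 F) : W9 F := (w.2.1, w.1, w.2.2.2, w.2.2.1)

theorem sw9_sw9 {F : Type} (w : W9 F) : sw9 (sw9 w) = w := rfl

/-- `sw9` as an equivalence -/
def sw9E (F : Type) : W9 F ≃ W9 F where
  toFun := sw9
  invFun := sw9
  left_inv := sw9_sw9
  right_inv := sw9_sw9

/-- the shift -/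
def S9 {F : Type} [Field F] (σ : F ≃+* F) (a a' : F) : W9 F :=
  (σ a * a', a * σ a', σ a * a' ^ 2, a ^ 2 * σ a')

theorem inc_iff {F : Type} [Field F] (σ : F ≃+* F) (a a' : F) (w w' : W9 F) :
    Inc σ (a, w) (a', w') ↔ w' = S9 σ a a' - sw9 w := by
  obtain ⟨b, c, d, e⟩ := w
  obtain ⟨b', c', d', e'⟩ := w'
  constructor
  · rintro ⟨h1, h2, h3, h4⟩
    refine Prod.ext ?_ (Prod.ext ?_ (Prod.ext ?_ ?_))
    · show b' = σ a * a' - c
      have h : b' + c = σ a * a' := h1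
      linear_combination h
    · show c' = a * σ a' - b
      have h : b + c' = a * σ a' := h2
      linear_combination h
    · show d' = σ a * a' ^ 2 - e
      have h : d' + e = σ a * a' ^ 2 := h3
      linear_combination h
    · show e' = a ^ 2 * σ a' - d
      have h : d + e' = a ^ 2 * σ a' := h4
      linear_combination h
  · intro h
    have h1 : b' = σ a * a' - c := congrArg Prod.fst h
    have h2 : c' = a * σ a' - b := congrArg (fun q : F × F × F × F => q.2.1) h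
    have h3 : d' = σ a * a' ^ 2 - e := congrArg (fun q : F × F × F × F => q.2.2.1) h
    have h4 : e' = a ^ 2 * σ a' - d := congrArg (fun q : F × F × F × F => q.2.2.2) h
    refine ⟨?_, ?_, ?_, ?_⟩
    · show b' + c = σ a * a'
      linear_combination h1
    · show b + c' = a * σ a'
      linear_combination h2
    · show d' + e = σ a * a' ^ 2
      linear_combination h3
    · show d + e' = a ^ 2 * σ a'
      linear_combination h4

/-- the form as a sum over `a`, `a'`, `w` -/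
theorem form_eq {F : Type} [Field F] [Fintype F] (σ : F ≃+* F) [DecidableRel (Inc σ)]
    (x : V9 F → ℝ) :
    ∑ u, ∑ v, (if Inc σ u v then x u * x v else 0) =
      ∑ a : F, ∑ a' : F, ∑ w : W9 F, x (a, w) * x (a', S9 σ a a' - sw9 w) := by
  classical
  rw [Fintype.sum_prod_type]
  refine Finset.sum_congr rfl fun a _ => ?_
  rw [Finset.sum_comm (s := (univ : Finset F))]
  refine Finset.sum_congr rfl fun w _ => ?_
  rw [Fintype.sum_prod_type]
  refine Finset.sum_congr rfl fun a' _ => ?_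
  have h : ∀ w' : W9 F, (if Inc σ (a, w) (a', w') then x (a, w) * x (a', w') else 0) =
      if w' = S9 σ a a' - sw9 w then x (a, w) * x (a', w') else 0 := by
    intro w'
    by_cases hw : w' = S9 σ a a' - sw9 w
    · rw [if_pos hw, if_pos ((inc_iff σ a a' w w').2 hw)]
    · rw [if_neg hw, if_neg (fun h => hw ((inc_iff σ a a' w w').1 h))]
  rw [Finset.sum_congr rfl fun w' _ => h w', Finset.sum_ite_eq' univ (S9 σ a a' - sw9 w),
    if_pos (mem_univ _)]

/-! ## The characters of `F ^ 4` -/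

section Chars

variable {F : Type} [Field F]

/-- the characters of `F ^ 4` -/
noncomputable def P9 (ψ : AddChar F ℂ) (β w : W9 F) : ℂ :=
  ψ (β.1 * w.1 + β.2.1 * w.2.1 + β.2.2.1 * w.2.2.1 + β.2.2.2 * w.2.2.2)

theorem P9_add (ψ : AddChar F ℂ) (β v w : W9 F) : P9 ψ β (v + w) = P9 ψ β v * P9 ψ β w := by
  unfold P9
  rw [← AddChar.map_add_eq_mul]
  congr 1
  simp only [Prod.fst_add, Prod.snd_add]
  ring

theorem P9_zero (ψ : AddChar F ℂ) (β : W9 F) : P9 ψ β 0 = 1 := by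
  unfold P9
  simp

theorem P9_zero_left (ψ : AddChar F ℂ) (w : W9 F) : P9 ψ 0 w = 1 := by
  unfold P9
  simp

theorem P9_conj [Finite F] (ψ : AddChar F ℂ) (β w : W9 F) :
    (starRingEnd ℂ) (P9 ψ β w) = P9 ψ β (-w) := by
  unfold P9
  rw [← AddChar.map_neg_eq_conj]
  congr 1
  simp only [Prod.fst_neg, Prod.snd_neg]
  ring

theorem sum_char [Fintype F] [DecidableEq F] {ψ : AddChar F ℂ} (hψ : ψ ≠ 1) (w : F) :
    ∑ β, ψ (β * w) = if w = 0 then (Fintype.card F : ℂ) else 0 := by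
  have h := AddChar.sum_mulShift w (AddChar.IsPrimitive.of_ne_one hψ)
  rw [h]
  split_ifs <;> simp

theorem P9_sum [Fintype F] [DecidableEq F] {ψ : AddChar F ℂ} (hψ : ψ ≠ 1) (w : W9 F) :
    ∑ β, P9 ψ β w = if w = 0 then (Fintype.card F : ℂ) ^ 4 else 0 := by
  have h1 : ∑ β, P9 ψ β w = (∑ b, ψ (b * w.1)) * ((∑ b, ψ (b * w.2.1)) *
      ((∑ b, ψ (b * w.2.2.1)) * (∑ b, ψ (b * w.2.2.2)))) := by
    simp only [Fintype.sum_prod_type]
    rw [Finset.sum_mul]
    refine Finset.sum_congr rfl fun b1 _ => ?_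
    rw [Finset.sum_mul, Finset.mul_sum]
    refine Finset.sum_congr rfl fun b2 _ => ?_
    rw [Finset.sum_mul, Finset.mul_sum, Finset.mul_sum]
    refine Finset.sum_congr rfl fun b3 _ => ?_
    rw [Finset.mul_sum, Finset.mul_sum, Finset.mul_sum]
    refine Finset.sum_congr rfl fun b4 _ => ?_
    unfold P9
    simp only [AddChar.map_add_eq_mul]
    ring
  rw [h1, sum_char hψ, sum_char hψ, sum_char hψ, sum_char hψ]
  obtain ⟨w1, w2, w3, w4⟩ := w
  simp only [Prod.mk_eq_zero]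
  by_cases h1 : w1 = 0 <;> by_cases h2 : w2 = 0 <;> by_cases h3 : w3 = 0 <;>
    by_cases h4 : w4 = 0 <;> simp only [h1, h2, h3, h4, if_true, if_false, and_true, and_false,
      mul_zero, zero_mul]
  ring

theorem corr [Fintype F] {ψ : AddChar F ℂ} (hψ : ψ ≠ 1) (s : W9 F → W9 F)
    (f g : W9 F → ℂ) (S : W9 F) :
    ∑ β, (∑ w, f w * P9 ψ β (s w)) * (∑ w, g w * P9 ψ β w) * P9 ψ β (-S) =
      (Fintype.card F : ℂ) ^ 4 * ∑ w, f w * g (S - s w) := by
  classical
  calc ∑ β, (∑ w, f w * P9 ψ β (s w)) * (∑ w, g w * P9 ψ β w) * P9 ψ β (-S)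
      = ∑ β, ∑ w, ∑ w', f w * g w' * P9 ψ β (s w + w' - S) := by
        refine Finset.sum_congr rfl fun β _ => ?_
        rw [Finset.sum_mul_sum, Finset.sum_mul]
        refine Finset.sum_congr rfl fun w _ => ?_
        rw [Finset.sum_mul]
        refine Finset.sum_congr rfl fun w' _ => ?_
        rw [sub_eq_add_neg, P9_add, P9_add]
        ring
    _ = ∑ w, ∑ w', f w * g w' * ∑ β, P9 ψ β (s w + w' - S) := by
        rw [Finset.sum_comm]
        refine Finset.sum_congr rfl fun w _ => ?_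
        rw [Finset.sum_comm]
        refine Finset.sum_congr rfl fun w' _ => ?_
        rw [Finset.mul_sum]
    _ = (Fintype.card F : ℂ) ^ 4 * ∑ w, f w * g (S - s w) := by
        rw [Finset.mul_sum]
        refine Finset.sum_congr rfl fun w _ => ?_
        simp only [P9_sum hψ]
        rw [Finset.sum_eq_single (S - s w)]
        · rw [if_pos (by abel)]
          ring
        · intro w' _ hne
          rw [if_neg, mul_zero]
          intro h
          apply hne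
          rw [sub_eq_zero] at h
          rw [← h]
          abel
        · intro h
          exact absurd (mem_univ _) h

theorem parseval [Fintype F] {ψ : AddChar F ℂ} (hψ : ψ ≠ 1) (y : W9 F → ℝ) :
    ∑ β, ‖∑ w, (y w : ℂ) * P9 ψ β w‖ ^ 2 = (Fintype.card F : ℝ) ^ 4 * ∑ w, y w ^ 2 := by
  have h := corr hψ (fun w => -w) (fun w => (y w : ℂ)) (fun w => (y w : ℂ)) 0
  simp only [neg_zero, P9_zero, mul_one, zero_sub, neg_neg] at h
  have h2 : ∀ β, (∑ w, (y w : ℂ) * P9 ψ β (-w)) =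
      (starRingEnd ℂ) (∑ w, (y w : ℂ) * P9 ψ β w) := by
    intro β
    rw [map_sum]
    refine Finset.sum_congr rfl fun w _ => ?_
    rw [map_mul, P9_conj, Complex.conj_ofReal]
  simp only [h2] at h
  have h3 : ∀ z : ℂ, (starRingEnd ℂ) z * z = ((‖z‖ ^ 2 : ℝ) : ℂ) := by
    intro z
    rw [mul_comm, Complex.mul_conj, Complex.normSq_eq_norm_sq]
  simp only [h3] at h
  have h4 : ((∑ β, ‖∑ w, (y w : ℂ) * P9 ψ β w‖ ^ 2 : ℝ) : ℂ) =
      (((Fintype.card F : ℝ) ^ 4 * ∑ w, y w ^ 2 : ℝ) : ℂ) := by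
    rw [Complex.ofReal_sum, h]
    push_cast
    congr 1
    refine Finset.sum_congr rfl fun w _ => ?_
    ring
  exact_mod_cast h4

end Chars

/-! ## The bound for one character -/

theorem norm_le_of_sq {q X Y N : ℝ} (hq : 0 ≤ q) (hN : 0 ≤ N) (hX : 0 ≤ X) (hY : 0 ≤ Y)
    (h : N ^ 2 ≤ 16 * q * (X * Y)) : N ≤ 2 * Real.sqrt q * (X + Y) := by
  have hs := Real.sq_sqrt hq
  have h0 := Real.sqrt_nonneg q
  refine (pow_le_pow_iff_left₀ hN (by positivity) two_ne_zero).1 ?_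
  rw [mul_pow, mul_pow, hs]
  nlinarith [mul_nonneg hq (sq_nonneg (X - Y))]

section Main

variable {F : Type} [Field F] [Fintype F]

/-- the first transform -/
noncomputable def tA (ψ : AddChar F ℂ) (x : V9 F → ℝ) (β : W9 F) (a : F) : ℂ :=
  ∑ w, (x (a, w) : ℂ) * P9 ψ β (sw9 w)

/-- the second transform -/
noncomputable def tB (ψ : AddChar F ℂ) (x : V9 F → ℝ) (β : W9 F) (a : F) : ℂ :=
  ∑ w, (x (a, w) : ℂ) * P9 ψ β w

/-- the part of one character -/
noncomputable def Zb (ψ : AddChar F ℂ) (σ : F ≃+* F) (x : V9 F → ℝ) (β : W9 F) : ℂ :=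
  ∑ a, ∑ a', tA ψ x β a * tB ψ x β a' * P9 ψ β (-S9 σ a a')

theorem sum_Zb {ψ : AddChar F ℂ} (hψ : ψ ≠ 1) (σ : F ≃+* F) (x : V9 F → ℝ) :
    ∑ β, Zb ψ σ x β = (((Fintype.card F : ℝ) ^ 4 *
      ∑ a : F, ∑ a' : F, ∑ w : W9 F, x (a, w) * x (a', S9 σ a a' - sw9 w) : ℝ) : ℂ) := by
  unfold Zb
  rw [Finset.sum_comm]
  push_cast
  rw [Finset.mul_sum]
  refine Finset.sum_congr rfl fun a _ => ?_
  rw [Finset.sum_comm, Finset.mul_sum]
  refine Finset.sum_congr rfl fun a' _ => ?_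
  exact corr hψ sw9 (fun w => (x (a, w) : ℂ)) (fun w => (x (a', w) : ℂ)) (S9 σ a a')

theorem sum_tB {ψ : AddChar F ℂ} (hψ : ψ ≠ 1) (x : V9 F → ℝ) (hx : ∀ v, x v ^ 2 = 1) :
    ∑ β, ∑ a, ‖tB ψ x β a‖ ^ 2 = (Fintype.card F : ℝ) ^ 9 := by
  rw [Finset.sum_comm]
  have h : ∀ a, ∑ β, ‖tB ψ x β a‖ ^ 2 = (Fintype.card F : ℝ) ^ 8 := by
    intro a
    have h1 := parseval hψ (fun w => x (a, w))
    simp only [hx, Finset.sum_const, card_univ, Fintype.card_prod, nsmul_eq_mul, mul_one] at h1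
    unfold tB
    rw [h1]
    push_cast
    ring
  rw [Finset.sum_congr rfl fun a _ => h a, Finset.sum_const, card_univ, nsmul_eq_mul]
  ring

theorem tA_eq (ψ : AddChar F ℂ) (x : V9 F → ℝ) (β : W9 F) (a : F) :
    tA ψ x β a = tB ψ (fun v => x (v.1, sw9 v.2)) β a := by
  unfold tA tB
  exact (Equiv.sum_comp (sw9E F) (fun w => (x (a, w) : ℂ) * P9 ψ β (sw9 w))).symm

theorem sum_tA {ψ : AddChar F ℂ} (hψ : ψ ≠ 1) (x : V9 F → ℝ) (hx : ∀ v, x v ^ 2 = 1) :
    ∑ β, ∑ a, ‖tA ψ x β a‖ ^ 2 = (Fintype.card F : ℝ) ^ 9 := by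
  simp only [tA_eq]
  exact sum_tB hψ _ fun v => hx _

theorem tA_zero (ψ : AddChar F ℂ) (x : V9 F → ℝ) (a : F) :
    tA ψ x 0 a = ((∑ w, x (a, w) : ℝ) : ℂ) := by
  unfold tA
  rw [Complex.ofReal_sum]
  refine Finset.sum_congr rfl fun w _ => ?_
  rw [P9_zero_left, mul_one]

theorem tB_zero (ψ : AddChar F ℂ) (x : V9 F → ℝ) (a : F) :
    tB ψ x 0 a = ((∑ w, x (a, w) : ℝ) : ℂ) := by
  unfold tB
  rw [Complex.ofReal_sum]
  refine Finset.sum_congr rfl fun w _ => ?_
  rw [P9_zero_left, mul_one]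

theorem Zb_zero (ψ : AddChar F ℂ) (σ : F ≃+* F) (x : V9 F → ℝ) : 0 ≤ (Zb ψ σ x 0).re := by
  have h : Zb ψ σ x 0 = (((∑ a, ∑ w, x (a, w)) * (∑ a, ∑ w, x (a, w)) : ℝ) : ℂ) := by
    unfold Zb
    rw [Finset.sum_mul_sum, Complex.ofReal_sum]
    refine Finset.sum_congr rfl fun a _ => ?_
    rw [Complex.ofReal_sum]
    refine Finset.sum_congr rfl fun a' _ => ?_
    rw [P9_zero_left, mul_one, tA_zero, tB_zero, Complex.ofReal_mul]
  rw [h, Complex.ofReal_re]
  exact mul_self_nonneg _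

theorem Zb_ne (hNRM : NrmStmt) [CharP F 3] {ψ : AddChar F ℂ} (hψ : ψ ≠ 1) (σ : F ≃+* F)
    (hσ : ∀ x, σ (σ x) = x ^ 3) (hψσ : ∀ x, ψ (σ x) = ψ x) (hq : Fintype.card F % 4 = 3)
    (x : V9 F → ℝ) {β : W9 F} (hβ : β ≠ 0) :
    ‖Zb ψ σ x β‖ ≤ 2 * Real.sqrt (Fintype.card F) *
      (∑ a, ‖tA ψ x β a‖ ^ 2 + ∑ a, ‖tB ψ x β a‖ ^ 2) := by
  classical
  have h := hNRM F σ ψ hσ hψ hψσ hq (-β.1) (-β.2.1) (-β.2.2.1) (-β.2.2.2) (by
    rintro ⟨h1, h2, h3, h4⟩
    apply hβ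
    rw [neg_eq_zero] at h1 h2 h3 h4
    exact Prod.ext h1 (Prod.ext h2 (Prod.ext h3 h4))) (tA ψ x β) (tB ψ x β)
  refine norm_le_of_sq (Nat.cast_nonneg _) (norm_nonneg _)
    (Finset.sum_nonneg fun _ _ => sq_nonneg _) (Finset.sum_nonneg fun _ _ => sq_nonneg _)
    (le_of_eq_of_le ?_ h)
  congr 2
  unfold Zb
  refine Finset.sum_congr rfl fun a _ => Finset.sum_congr rfl fun a' _ => ?_
  rw [mul_comm]
  congr 1
  unfold P9
  congr 1
  show β.1 * -(σ a * a') + β.2.1 * -(a * σ a') + β.2.2.1 * -(σ a * a' ^ 2) +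
    β.2.2.2 * -(a ^ 2 * σ a') = _
  ring

end Main

/-- LOW. -/
theorem low (hNRM : NrmStmt) : LowStmt := by
  intro F _ _ _ _ σ hσ hq x hx _
  obtain ⟨ψ, hψ, hψσ⟩ := exists_char F σ
  have hx2 : ∀ v, x v ^ 2 = 1 := by
    intro v
    rcases hx v with h | h <;> rw [h] <;> norm_num
  rw [form_eq]
  set T : ℝ := ∑ a : F, ∑ a' : F, ∑ w : W9 F, x (a, w) * x (a', S9 σ a a' - sw9 w) with hT
  have hX : (0 : ℝ) < Fintype.card F := by exact_mod_cast Fintype.card_pos
  have h1 : ∀ β : W9 F, -(2 * Real.sqrt (Fintype.card F) *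
      (∑ a, ‖tA ψ x β a‖ ^ 2 + ∑ a, ‖tB ψ x β a‖ ^ 2)) ≤ (Zb ψ σ x β).re := by
    intro β
    by_cases hβ : β = 0
    · rw [hβ]
      refine le_trans ?_ (Zb_zero ψ σ x)
      rw [neg_nonpos]
      positivity
    · have h2 := Zb_ne hNRM hψ σ hσ hψσ hq x hβ
      have h3 := (abs_le.1 (Complex.abs_re_le_norm (Zb ψ σ x β))).1
      linarith
  have h2 : -(2 * Real.sqrt (Fintype.card F) *
      ((Fintype.card F : ℝ) ^ 9 + (Fintype.card F : ℝ) ^ 9)) ≤ (Fintype.card F : ℝ) ^ 4 * T := by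
    have h3 := Finset.sum_le_sum fun β (_ : β ∈ (univ : Finset (W9 F))) => h1 β
    rw [Finset.sum_neg_distrib, ← Finset.mul_sum, Finset.sum_add_distrib, sum_tA hψ x hx2,
      sum_tB hψ x hx2, ← Complex.re_sum, sum_Zb hψ, Complex.ofReal_re] at h3
    exact h3
  have h4 : (0 : ℝ) < (Fintype.card F : ℝ) ^ 4 := by positivity
  refine le_of_mul_le_mul_left (le_trans (le_of_eq ?_) h2) h4
  ring

end Pool.Agent.G9.H35
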